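import Mathlib
import Pool.Agent.D0H46.SA.Main
import Pool.Agent.D0H46.SA.Real
import Pool.Agent.H39R3.Tor.SUnit

/-!
# Almost all ramified covers of semiabelian varieties have no integral points

Let `G = E_1 × ⋯ × E_r × G_m^n`, where `E_j : y² = x³ + a_j x + b_j` is an elliptic curve of
`j`-invariant `0` or `1728` over `ℚ`, let `K` be a totally real number field contained in a
cyclotomic field, for example `K = ℚ` or any real quadratic field, and let `S` be a finite set of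
primes of `K`. An `S`-integral point of a finite cover of `G` lies over a point
`(P, x) ∈ ∏ E_j(K) × (S-units)^n` of `G`; more generally we take `x` in any finitely generated
subgroup `Γ` of `(Kˣ)^n`.

We consider two kinds of families. Let `m_j ≥ 2`, `d ≥ 2`, let the `A_i` be finite subsets of `ℤ^n`,
which may be empty, and let `V_i(e)` be the space of functions on `G` with basis the
`(∏ x_j^(μ_j) y_j^(ν_j)) x^s`, `s ∈ A_i`, with poles of order at most `e m_j` at the origin of `E_j`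
(sections of `⊠ O(e m_j O_j)` times Laurent polynomials with exponents in `A_i`).

1. the finite covers `X_c : w^d + F_1 w^(d-1) + ⋯ + F_d = 0` of `G`, `F_i ∈ V_i(i)`;
2. the hypersurfaces `X_c : F_0 w^d + F_1 w^(d-1) u + ⋯ + F_d u^d = 0` in `G × ℙ^1`,
   `F_i ∈ V_i(1)`.

The coefficients of the `F_i` are arbitrary elements of a fixed finitely generated subgroup
`∑ ℤ ω_t` of `K`, e.g. of `ℤ` or of the ring of integers of `K`; the vector `c` of all the integer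
coordinates has size at most `H`, so there are `(2H+1)^J` of the `X_c`.

**Theorem.** All but `O(H^(J - 1/9 + ε))` of the `X_c` have no `S`-integral point at all (no
`K`-rational point over `∏ E_j(K) × Γ`), provided that `A_d ≠ ∅` (and `A_0 ≠ ∅` in family 2) and
one further `A_i` is nonempty, or `d` is even, or has a prime factor which does not divide `6 M`,
`K ⊂ ℚ(ζ_M)`. (If `A_d = ∅` all the `X_c` contain the section `w = 0`. So over `ℚ` the theorem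
covers all sparse families, with the exception of the cyclic covers `w^d = F` where `d` is a power
of `3`.)

The proof sieves with primes `p ≡ -1 mod 12 M`, for which the `E_j` are supersingular, so that
`E_j(𝔽_p)` is killed by `p + 1`. All these points `(P, x)` fall into classes modulo an integer `N`
divisible by `p² - 1` for more than `X^(1-ε)` primes `p ≤ X`, with `log N ≤ X^(3/4+ε)`; such `N` are
provided by primes such that both `p + 1` and `p - 1` have a prime factor of size about `X^(1/4)`,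
which are found with the theorem of Bombieri and Vinogradov. In each class a moment sieve is applied
to the coefficients.
-/

set_option autoImplicit false

namespace Pool.Agent.Results.MP_26d9ad_nt.CoversOfSemiabelianVarieties

open IsDedekindDomain NumberField

/-- the exponents `(μ, ν)`, `ν ≤ 1`, `2 μ + 3 ν ≤ n`, of a basis `x^μ y^ν` of the functions on
`y² = x³ + a x + b` with a pole of order at most `n` at the origin -/
def Ex (n : ℕ) : Finset (ℕ × ℕ) :=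
  ((Finset.range (n + 1)) ×ˢ (Finset.range 2)).filter (fun s => 2 * s.1 + 3 * s.2 ≤ n)

/-- the monomial `X^μ Y^ν Z^(n - 2 μ - 3 ν)`, of degree `n` for the weights `2, 3, 1` of `X, Y, Z` -/
def monE {R : Type} [CommRing R] {n : ℕ} (s : {s : ℕ × ℕ // s ∈ Ex n}) (X Y Z : R) : R :=
  X ^ s.1.1 * Y ^ s.1.2 * Z ^ (n - 2 * s.1.1 - 3 * s.1.2)

/-- the indices of the basis `∏ x_j^(μ_j) y_j^(ν_j) x^s`, `s ∈ A`, of the sections of
`⊠ O(e_j O_j)` times Laurent polynomials with exponents in `A` -/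
abbrev Ind {r n : ℕ} (e : Fin r → ℕ) (A : Finset (Fin n → ℤ)) : Type :=
  ((j : Fin r) → {s : ℕ × ℕ // s ∈ Ex (e j)}) × A

/-- the value of the section with the coefficients `∑ t, c (s, t) ω_t` at the point with weighted
homogeneous coordinates `X_j, Y_j, Z_j` and torus coordinates `x` -/
noncomputable def val {K : Type} [Field K] {N r n : ℕ} (ω : Fin N → K) {e : Fin r → ℕ}
    {A : Finset (Fin n → ℤ)} (c : Ind e A × Fin N → ℤ) (X Y Z : Fin r → K) (x : Fin n → Kˣ) : K :=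
  ∑ s : Ind e A, (∑ t, (c (s, t) : K) * ω t) *
    ((∏ j, monE (s.1 j) (X j) (Y j) (Z j)) * ((∏ l, x l ^ s.2.1 l : Kˣ) : K))

/-- `X_j, Y_j, Z_j` are weighted homogeneous coordinates of a point of `y² = x³ + a_j x + b_j` -/
def OnE {K : Type} [Field K] {r : ℕ} (a b : Fin r → ℤ) (X Y Z : Fin r → K) : Prop :=
  ∀ j, Y j ^ 2 = X j ^ 3 + a j * X j * Z j ^ 4 + b j * Z j ^ 6 ∧
    ¬ (X j = 0 ∧ Y j = 0 ∧ Z j = 0)

/-- the integer coefficients of `(F_1, …, F_d)` -/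
abbrev Coef1 (N : ℕ) {r n d : ℕ} (m : Fin r → ℕ) (A : Fin d → Finset (Fin n → ℤ)) : Type :=
  Σ i : Fin d, Ind (fun j => (i.1 + 1) * m j) (A i) × Fin N

/-- the cover `w^d + F_1 w^(d-1) + ⋯ + F_d = 0` has a point over `K` with torus coordinates in
`T` -/
def HasPoint1 {K : Type} [Field K] {N r n d : ℕ} (ω : Fin N → K) (a b : Fin r → ℤ)
    (m : Fin r → ℕ) (A : Fin d → Finset (Fin n → ℤ)) (T : Set (Fin n → Kˣ))
    (c : Coef1 N m A → ℤ) : Prop :=
  ∃ (X Y Z : Fin r → K) (x : Fin n → Kˣ) (w : K), OnE a b X Y Z ∧ x ∈ T ∧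
    w ^ d + ∑ i : Fin d, val ω (fun s => c ⟨i, s⟩) X Y Z x * w ^ (d - 1 - i.1) = 0

/-- the integer coefficients of `(F_0, …, F_d)` -/
abbrev Coef2 (N : ℕ) {r n d : ℕ} (m : Fin r → ℕ) (A : Fin (d + 1) → Finset (Fin n → ℤ)) : Type :=
  Σ i : Fin (d + 1), Ind m (A i) × Fin N

/-- the hypersurface `F_0 w^d + F_1 w^(d-1) u + ⋯ + F_d u^d = 0` has a point over `K` with torus
coordinates in `T` -/
def HasPoint2 {K : Type} [Field K] {N r n d : ℕ} (ω : Fin N → K) (a b : Fin r → ℤ)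
    (m : Fin r → ℕ) (A : Fin (d + 1) → Finset (Fin n → ℤ)) (T : Set (Fin n → Kˣ))
    (c : Coef2 N m A → ℤ) : Prop :=
  ∃ (X Y Z : Fin r → K) (x : Fin n → Kˣ) (w u : K), OnE a b X Y Z ∧ x ∈ T ∧
    ¬ (w = 0 ∧ u = 0) ∧
    ∑ i : Fin (d + 1), val ω (fun s => c ⟨i, s⟩) X Y Z x * (w ^ (d - i.1) * u ^ i.1) = 0

/-- Almost all members of both kinds of families have no point with torus coordinates in `T`.
`cyc d` is the condition under which the families with only `F_d` (with only `F_0` and `F_d`) are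
included. -/
def AlmostAll {K : Type} [Field K] {N r n : ℕ} (ω : Fin N → K) (a b : Fin r → ℤ)
    (T : Set (Fin n → Kˣ)) (cyc : ℕ → Prop) : Prop :=
  ∀ (d : ℕ) (m : Fin r → ℕ), 2 ≤ d → (∀ j, 2 ≤ m j) → ∀ ε : ℝ, 0 < ε →
    (∀ A : Fin d → Finset (Fin n → ℤ),
      (∃ i : Fin d, i.1 + 1 = d ∧ (A i).Nonempty) →
      ((∃ i : Fin d, i.1 + 1 < d ∧ (A i).Nonempty) ∨ cyc d) →
      ∃ C : ℝ, ∀ H : ℕ, 1 ≤ H →
        (Nat.card {c : Coef1 N m A → ℤ // (∀ s, |c s| ≤ H) ∧ HasPoint1 ω a b m A T c} : ℝ) ≤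
          C * (H : ℝ) ^ ((Fintype.card (Coef1 N m A) : ℝ) - 1 / 9 + ε)) ∧
    (∀ A : Fin (d + 1) → Finset (Fin n → ℤ), (A 0).Nonempty → (A (Fin.last d)).Nonempty →
      ((∃ i : Fin (d + 1), 0 < i.1 ∧ i.1 < d ∧ (A i).Nonempty) ∨ cyc d) →
      ∃ C : ℝ, ∀ H : ℕ, 1 ≤ H →
        (Nat.card {c : Coef2 N m A → ℤ // (∀ s, |c s| ≤ H) ∧ HasPoint2 ω a b m A T c} : ℝ) ≤
          C * (H : ℝ) ^ ((Fintype.card (Coef2 N m A) : ℝ) - 1 / 9 + ε))

/-- the primes `p ≡ α mod M`, `p ∤ D`: `K` embeds in `ℚ_p` and all the `E_j` are supersingular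
modulo `p`, with `p` affine points over `𝔽_p` -/
structure Sieving (K : Type) [Field K] {r : ℕ} (a b : Fin r → ℤ) (M D : ℕ) (α : ℤ) : Prop where
  hM : 0 < M
  hD : 0 < D
  hα : IsCoprime α (M : ℤ)
  hdisc : ∀ i, 4 * a i ^ 3 + 27 * b i ^ 2 ≠ 0
  hσ : ∀ (p : ℕ) [Fact p.Prime], ¬ p ∣ D → (M : ℤ) ∣ (p : ℤ) - α → Nonempty (K →+* ℚ_[p])
  hss : ∀ i, ∀ p : ℕ, p.Prime → ¬ p ∣ D → (M : ℤ) ∣ (p : ℤ) - α →
    Nat.card {z : ZMod p × ZMod p // z.2 ^ 2 = z.1 ^ 3 + a i * z.1 + b i} = p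

theorem card_Ind {r n : ℕ} (e : Fin r → ℕ) (he : ∀ j, 1 ≤ e j) (A : Finset (Fin n → ℤ)) :
    Fintype.card (Ind e A) = (∏ j, e j) * A.card :=
  Pool.Agent.D0H46.SA.card_Sec e he A

theorem card1 (N : ℕ) {r n d : ℕ} (m : Fin r → ℕ) (hm : ∀ j, 1 ≤ m j)
    (A : Fin d → Finset (Fin n → ℤ)) :
    Fintype.card (Coef1 N m A) = N * ∑ i : Fin d, (∏ j, ((i.1 + 1) * m j)) * (A i).card := by
  rw [Fintype.card_sigma, Finset.mul_sum]
  refine Finset.sum_congr rfl fun i _ => ?_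
  rw [Fintype.card_prod, Fintype.card_fin, mul_comm]
  congr 1
  refine card_Ind _ (fun j => ?_) _
  have := hm j
  nlinarith

theorem card2 (N : ℕ) {r n d : ℕ} (m : Fin r → ℕ) (hm : ∀ j, 1 ≤ m j)
    (A : Fin (d + 1) → Finset (Fin n → ℤ)) :
    Fintype.card (Coef2 N m A) = N * ((∏ j, m j) * ∑ i : Fin (d + 1), (A i).card) := by
  rw [Fintype.card_sigma, Finset.mul_sum, Finset.mul_sum]
  refine Finset.sum_congr rfl fun i _ => ?_
  rw [Fintype.card_prod, Fintype.card_fin, mul_comm]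
  congr 1
  exact card_Ind _ hm _

theorem general (K : Type) [Field K] [NumberField K] {N r n : ℕ} (ω : Fin N → K)
    (hω : ∃ t, ω t ≠ 0) (a b : Fin r → ℤ) (Γ : Subgroup (Fin n → Kˣ)) (hΓ : Γ.FG) (d : ℕ)
    (m : Fin r → ℕ) (hd : 2 ≤ d) (hm : ∀ j, 2 ≤ m j) (ε : ℝ) (hε : 0 < ε) :
    (∀ A : Fin d → Finset (Fin n → ℤ), (∃ i : Fin d, i.1 + 1 = d ∧ (A i).Nonempty) →
      (∃ (M D : ℕ) (α : ℤ), Sieving K a b M D α ∧ ((∃ i : Fin d, i.1 + 1 < d ∧ (A i).Nonempty) ∨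
        Pool.Agent.D0H46.SA.Cyc M D α d)) →
      ∃ C : ℝ, ∀ H : ℕ, 1 ≤ H →
        (Nat.card {c : Coef1 N m A → ℤ // (∀ s, |c s| ≤ H) ∧
          HasPoint1 ω a b m A (Γ : Set (Fin n → Kˣ)) c} : ℝ) ≤
          C * (H : ℝ) ^ ((Fintype.card (Coef1 N m A) : ℝ) - 1 / 9 + ε)) ∧
    (∀ A : Fin (d + 1) → Finset (Fin n → ℤ), (A 0).Nonempty → (A (Fin.last d)).Nonempty →
      (∃ (M D : ℕ) (α : ℤ), Sieving K a b M D α ∧
        ((∃ i : Fin (d + 1), 0 < i.1 ∧ i.1 < d ∧ (A i).Nonempty) ∨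
          Pool.Agent.D0H46.SA.Cyc M D α d)) →
      ∃ C : ℝ, ∀ H : ℕ, 1 ≤ H →
        (Nat.card {c : Coef2 N m A → ℤ // (∀ s, |c s| ≤ H) ∧
          HasPoint2 ω a b m A (Γ : Set (Fin n → Kˣ)) c} : ℝ) ≤
          C * (H : ℝ) ^ ((Fintype.card (Coef2 N m A) : ℝ) - 1 / 9 + ε)) := by
  have h1m : ∀ j, 1 ≤ m j := fun j => (by norm_num : 1 ≤ 2).trans (hm j)
  constructor
  · rintro A hA ⟨M, D, α, ⟨h1, h2, h3, h4, h5, h6⟩, hcyc⟩
    rw [card1 N m h1m A]
    exact Pool.Agent.D0H46.SA.main1 K ω hω a b m hm hd A M D α ⟨h1, h2, h3, h4, h5, h6⟩ hA hcyc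
      Γ hΓ ε hε
  · rintro A hA0 hAd ⟨M, D, α, ⟨h1, h2, h3, h4, h5, h6⟩, hcyc⟩
    rw [card2 N m h1m A]
    exact Pool.Agent.D0H46.SA.main2 K ω hω a b m hm hd A M D α ⟨h1, h2, h3, h4, h5, h6⟩ hA0 hAd hcyc
      Γ hΓ ε hε

theorem sieving_real (K : Type) [Field K] [NumberField K] [IsTotallyReal K] (M : ℕ) (hM : 0 < M)
    (hK : Nonempty (K →+* CyclotomicField M ℚ)) {r : ℕ} (a b : Fin r → ℤ)
    (hab : ∀ j, a j * b j = 0 ∧ (a j ≠ 0 ∨ b j ≠ 0)) :
    ∃ D : ℕ, 2 ∣ D ∧ ∀ (M' : ℕ) (α : ℤ), 0 < M' → 12 * M ∣ M' → ((12 * M : ℕ) : ℤ) ∣ α + 1 →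
      IsCoprime α (M' : ℤ) → Sieving K a b M' D α := by
  obtain ⟨D, hD, hemb⟩ := Pool.Agent.D0H46.SA.embedReal K M hM hK
  refine ⟨D * 2, dvd_mul_left _ _, fun M' α hM' hdvd hα hcop => ?_⟩
  have key : ∀ p : ℕ, (M' : ℤ) ∣ (p : ℤ) - α → 12 * M ∣ p + 1 := by
    intro p hp
    have h1 : ((12 * M : ℕ) : ℤ) ∣ (p : ℤ) - α := (Int.natCast_dvd_natCast.2 hdvd).trans hp
    have h2 := dvd_add h1 hα
    have h3 : (p : ℤ) - α + (α + 1) = ((p + 1 : ℕ) : ℤ) := by push_cast; ring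
    rw [h3] at h2
    exact Int.natCast_dvd_natCast.1 h2
  refine ⟨hM', Nat.mul_pos hD (by norm_num), hcop, ?_, ?_, ?_⟩
  · intro i h
    obtain ⟨h1, h2⟩ := hab i
    rcases mul_eq_zero.1 h1 with h3 | h3
    · rw [h3] at h h2
      have h4 : (b i) ^ 2 = 0 := by linarith
      rcases h2 with h2 | h2
      · exact h2 rfl
      · exact h2 (pow_eq_zero_iff two_ne_zero |>.1 h4)
    · rw [h3] at h h2
      have h4 : (a i) ^ 3 = 0 := by linarith
      rcases h2 with h2 | h2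
      · exact h2 (pow_eq_zero_iff three_ne_zero |>.1 h4)
      · exact h2 rfl
  · intro p _ hpD hp
    refine hemb p (fun h => hpD (h.mul_right _)) ?_
    have h1 : M ∣ p + 1 := (Dvd.intro_left 12 rfl).trans (key p hp)
    have h2 : ((p + 1 : ℕ) : ℤ) = (p : ℤ) + 1 := by push_cast; rfl
    rw [← h2]
    exact Int.natCast_dvd_natCast.2 h1
  · intro i p hp hpD hpM
    exact Pool.Agent.H35R6.DCCNT.cnt p (a i) (b i) hp ((Dvd.intro M rfl).trans (key p hpM))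
      (hab i).1

/-- `d` has a prime factor which is `2` or does not divide `6 M` -/
def GoodDegree (M d : ℕ) : Prop := ∃ ℓ : ℕ, ℓ.Prime ∧ ℓ ∣ d ∧ (ℓ = 2 ∨ ¬ ℓ ∣ 6 * M)

theorem choice (K : Type) [Field K] [NumberField K] [IsTotallyReal K] (M : ℕ) (hM : 0 < M)
    (hK : Nonempty (K →+* CyclotomicField M ℚ)) {r : ℕ} (a b : Fin r → ℤ)
    (hab : ∀ j, a j * b j = 0 ∧ (a j ≠ 0 ∨ b j ≠ 0)) (Q : Prop) (d : ℕ)
    (h : Q ∨ GoodDegree M d) :
    ∃ (M' D : ℕ) (α : ℤ), Sieving K a b M' D α ∧ (Q ∨ Pool.Agent.D0H46.SA.Cyc M' D α d) := by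
  obtain ⟨D, hD2, hS⟩ := sieving_real K M hM hK a b hab
  have hcop : IsCoprime (-1 : ℤ) ((12 * M : ℕ) : ℤ) := ⟨-1, 0, by ring⟩
  have hS1 := hS (12 * M) (-1) (by omega) dvd_rfl (by simp) hcop
  rcases h with h | ⟨ℓ, hℓ, hℓd, h2 | h2⟩
  · exact ⟨12 * M, D, -1, hS1, Or.inl h⟩
  · refine ⟨12 * M, D, -1, hS1, Or.inr ?_⟩
    intro p hp hpD _ hg
    subst h2
    have hodd : 2 ∣ p - 1 := by
      rcases hp.eq_two_or_odd with h | h
      · exact absurd (h ▸ hD2) hpD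
      · omega
    have := Nat.dvd_gcd hℓd hodd
    rw [hg] at this
    omega
  · have hc : IsCoprime ((12 * M : ℕ) : ℤ) (ℓ : ℤ) := by
      rw [Nat.isCoprime_iff_coprime]
      apply Nat.Coprime.symm
      rw [Nat.Prime.coprime_iff_not_dvd hℓ]
      intro hcon
      apply h2
      have h3 : ℓ ∣ 2 * (6 * M) := by
        have : 2 * (6 * M) = 12 * M := by ring
        rwa [this]
      rcases (Nat.Prime.dvd_mul hℓ).1 h3 with h4 | h4
      · exact (h4.trans (by norm_num)).mul_right M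
      · exact h4
    obtain ⟨α, hα1, hα2⟩ := Pool.Agent.D0H46.SA.crt _ _ (-1) 1 hc
    rw [sub_neg_eq_add] at hα1
    have hcop2 : IsCoprime α ((12 * M * ℓ : ℕ) : ℤ) := by
      rw [Nat.cast_mul]
      apply IsCoprime.mul_right
      · obtain ⟨k, hk⟩ := hα1
        have : α = -1 + ((12 * M : ℕ) : ℤ) * k := by linarith
        rw [this]
        exact (isCoprime_one_left.neg_left).add_mul_left_left k
      · obtain ⟨k, hk⟩ := hα2
        have : α = 1 + (ℓ : ℤ) * k := by linarith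
        rw [this]
        exact isCoprime_one_left.add_mul_left_left k
    refine ⟨12 * M * ℓ, D, α, hS _ α (Nat.mul_pos (by omega) hℓ.pos) (dvd_mul_right _ _) hα1 hcop2,
      Or.inr ?_⟩
    intro p hp _ hpM hg
    have h3 : (ℓ : ℤ) ∣ (p : ℤ) - 1 := by
      have h4 : (ℓ : ℤ) ∣ (p : ℤ) - α :=
        (Int.natCast_dvd_natCast.2 (dvd_mul_left ℓ (12 * M))).trans hpM
      have h5 := dvd_add h4 hα2
      have h6 : (p : ℤ) - α + (α - 1) = (p : ℤ) - 1 := by ring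
      rwa [h6] at h5
    have h7 : ℓ ∣ p - 1 := by
      have h8 : ((p - 1 : ℕ) : ℤ) = (p : ℤ) - 1 := by
        rw [Nat.cast_sub hp.one_lt.le]
        push_cast
        ring
      rw [← h8] at h3
      exact Int.natCast_dvd_natCast.1 h3
    have h9 := Nat.dvd_gcd hℓd h7
    rw [hg] at h9
    exact hℓ.one_lt.ne' (Nat.dvd_one.1 h9)

theorem result :
    -- (1) totally real abelian number fields, curves of `j`-invariant `0` and `1728`
    (∀ (K : Type) [Field K] [NumberField K] [IsTotallyReal K] (M : ℕ), 0 < M →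
      Nonempty (K →+* CyclotomicField M ℚ) →
      ∀ (N r n : ℕ) (ω : Fin N → K), (∃ t, ω t ≠ 0) → ∀ a b : Fin r → ℤ,
      (∀ j, a j * b j = 0 ∧ (a j ≠ 0 ∨ b j ≠ 0)) →
      -- torus coordinates in a finitely generated group
      (∀ Γ : Subgroup (Fin n → Kˣ), Γ.FG →
        AlmostAll ω a b (Γ : Set (Fin n → Kˣ)) (GoodDegree M)) ∧
      -- `S`-integral points
      (∀ S : Set (HeightOneSpectrum (𝓞 K)), S.Finite →
        AlmostAll ω a b {x : Fin n → Kˣ | ∀ l, x l ∈ S.unit K} (GoodDegree M))) ∧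
    -- (2) general form
    (∀ (K : Type) [Field K] [NumberField K] (N r n : ℕ) (ω : Fin N → K), (∃ t, ω t ≠ 0) →
      ∀ (a b : Fin r → ℤ) (M D : ℕ) (α : ℤ), Sieving K a b M D α →
      ∀ Γ : Subgroup (Fin n → Kˣ), Γ.FG → AlmostAll ω a b (Γ : Set (Fin n → Kˣ))
        (fun d => ∀ p : ℕ, p.Prime → ¬ p ∣ D → (M : ℤ) ∣ (p : ℤ) - α → Nat.gcd d (p - 1) ≠ 1)) ∧
    -- (3) the numbers of the coefficients
    (∀ (N r n d : ℕ) (m : Fin r → ℕ), (∀ j, 1 ≤ m j) →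
      (∀ A : Fin d → Finset (Fin n → ℤ),
        Fintype.card (Coef1 N m A) = N * ∑ i : Fin d, (∏ j, ((i.1 + 1) * m j)) * (A i).card) ∧
      (∀ A : Fin (d + 1) → Finset (Fin n → ℤ),
        Fintype.card (Coef2 N m A) = N * ((∏ j, m j) * ∑ i : Fin (d + 1), (A i).card))) := by
  have hΓ : ∀ (K : Type) [Field K] [NumberField K] [IsTotallyReal K] (M : ℕ), 0 < M →
      Nonempty (K →+* CyclotomicField M ℚ) →
      ∀ (N r n : ℕ) (ω : Fin N → K), (∃ t, ω t ≠ 0) → ∀ a b : Fin r → ℤ,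
      (∀ j, a j * b j = 0 ∧ (a j ≠ 0 ∨ b j ≠ 0)) →
      ∀ Γ : Subgroup (Fin n → Kˣ), Γ.FG →
        AlmostAll ω a b (Γ : Set (Fin n → Kˣ)) (GoodDegree M) := by
    intro K _ _ _ M hM hK N r n ω hω a b hab Γ hΓ d m hd hm ε hε
    obtain ⟨g1, g2⟩ := general K ω hω a b Γ hΓ d m hd hm ε hε
    exact ⟨fun A hA hcyc => g1 A hA (choice K M hM hK a b hab _ d hcyc),
      fun A hA0 hAd hcyc => g2 A hA0 hAd (choice K M hM hK a b hab _ d hcyc)⟩
  refine ⟨?_, ?_, ?_⟩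
  · intro K _ _ _ M hM hK N r n ω hω a b hab
    refine ⟨fun Γ h => hΓ K M hM hK N r n ω hω a b hab Γ h, fun S hS => ?_⟩
    have h2 := hΓ K M hM hK N r n ω hω a b hab _ (Pool.Agent.H39R3.Tor.sPoints_fg K S hS n)
    have h3 : ((Pool.Agent.H39R3.Tor.sPoints K S n : Subgroup (Fin n → Kˣ)) :
        Set (Fin n → Kˣ)) = {x : Fin n → Kˣ | ∀ k, x k ∈ S.unit K} := by
      ext x
      simp [Pool.Agent.H39R3.Tor.sPoints, Subgroup.mem_pi]
    rw [h3] at h2
    exact h2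
  · intro K _ _ N r n ω hω a b M D α hS Γ hΓ d m hd hm ε hε
    obtain ⟨g1, g2⟩ := general K ω hω a b Γ hΓ d m hd hm ε hε
    exact ⟨fun A hA hcyc => g1 A hA ⟨M, D, α, hS, hcyc⟩,
      fun A hA0 hAd hcyc => g2 A hA0 hAd ⟨M, D, α, hS, hcyc⟩⟩
  · intro N r n d m hm
    exact ⟨fun A => card1 N m hm A, fun A => card2 N m hm A⟩

end Pool.Agent.Results.MP_26d9ad_nt.CoversOfSemiabelianVarieties
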