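import Mathlib
import Pool.Agent.Results.MP_26d9ad_nt.LinearSystemsOverSemiabelian
import Pool.Agent.D0H48.Mv.Gn
import Pool.Agent.D0H48.Mv.Fam
import Pool.Agent.D0H48.Mv.Dir2

/-!
# The Lang–Vojta conjecture along the good approximations of almost every point: complete
# intersections over semiabelian varieties

Let `𝒯 ⊂ G × ℙ^(m-1)`, `G = E_1 × ⋯ × E_r × G_m^s`, be a closed subscheme over `𝓞 K` as in the starting
file LinearSystemsOverSemiabelian, whose complex fibres over `G` have dimension at most `κ`, `κ ≥ 1`, and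
let `Λ_1, …, Λ_κ` be linear systems on `𝒯` which separate `k₀` points, where `k₀` depends on `𝒯` only.
The complete intersections `X_c = 𝒯 ∩ {Φ_j + ∑_x c_(j,x) Λ_(j,x) = 0, j = 1, …, κ}` in `𝒯` are quasi-finite
over `G`, in general; by the Lang–Vojta conjecture most of them have only finitely many integral points.
It is known (starting file) that the `X_c` with an integral point are of density zero. Here `c` is a
vector of `D = n [K : ℚ]` integers, `n` the number of the coefficients.

Sets of `c` of density zero can contain a very sparse set given in advance. We prove that this does not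
happen for the good approximations of almost every point. For example for almost every direction
`y = (y_2, …, y_D)` in `ℝ^(D-1)` and all `η < 1` there are only finitely many `c ∈ ℤ^D` with

`max_i |y_i - c_i / c_1| ≤ |c| ^ (-D / (D - 1)) * exp ((log |c|) ^ η)` (1)

such that `X_c` has an integral point. By Dirichlet's theorem there are infinitely many `c` with (1) and
coprime coordinates for all `y ∉ ℚ^(D-1)` and `η > 0` (last part of the theorem), and for almost all `y`
the exponent `D / (D - 1)` cannot be increased. So for almost every `y` the `X_c` given by the best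
approximations of `y` have no integral points, with finitely many exceptions. The null set of the
exceptional `y` depends only on `𝒯` (on `K` and the index sets of the linear systems): the statement
holds at the same time for ALL linear systems `Λ_j` which separate `k₀` points, ALL `Φ_j`, ALL finite
extensions `L` of `K` and ALL finitely generated groups `Γ` in place of the group of `S`-units.

The first part of the theorem is more general: let `Y` be an arbitrary metric space, `t > 0`, and `ρ` an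
arbitrary map which represents the vectors `c` by points of `Y`. For all `y` in `Y` outside a set of
Hausdorff measure `μH[t]` zero the same is true for the `c` with

`dist (y, ρ c) ^ t * |c| ^ D ≤ exp ((log |c|) ^ η)`.

The second part is the case that `Y` is a real vector space of dimension `t`, with Haar measure, for
example `(K ⊗ ℝ)^(n-1)` and `ρ c = (c_x / c_(x_0))_x`, where the `c_x ∈ 𝓞 K` are the coefficients.

Proof. The exceptional set of the starting file has at most `H ^ D exp (-log H / (log log H) ^ 2)`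
elements of size at most `H`, and `∑ exp ((log |c|) ^ η) |c| ^ (-D)` over its elements converges. There
are countably many `(Λ, Φ)`.
-/

set_option autoImplicit false

namespace Pool.Agent.Results.MP_26d9ad_nt.MetricLinearSystems

open MvPolynomial NumberField MeasureTheory
open Pool.Agent.Results.MP_26d9ad_nt.LinearSystemsOverSemiabelian

/-- the maximum of the absolute values of the coordinates of a vector of integers -/
def size {α : Type} [Fintype α] (c : α → ℤ) : ℕ := Finset.univ.sup fun i => (c i).natAbs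

/-- The vectors `c` of integers, with `D` coordinates, which are good approximations of the point `y`
of a metric space, in which `c` is represented by `ρ c`: `dist(y, ρ c) ^ t |c| ^ D` is at most
`exp ((log |c|) ^ η)`. -/
def Near {α : Type} [Fintype α] {Y : Type} [MetricSpace Y] (ρ : (α → ℤ) → Y) (t : ℝ) (y : Y) (η : ℝ) :
    Set (α → ℤ) :=
  {c | dist y (ρ c) ^ t * (size c : ℝ) ^ Fintype.card α ≤ Real.exp (Real.log (size c) ^ η)}

/-- The direction `(c_i / c_(i₀))_(i ≠ i₀)` of a vector `c` of integers. -/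
noncomputable def direction {α : Type} (i₀ : α) (c : α → ℤ) : {i // i ≠ i₀} → ℝ :=
  fun i => (c i : ℝ) / c i₀

/-- For all `Φ_j` and all linear systems `Λ_j` on `𝒯` which separate `k₀` points, indexed by the `ι j`,
for all number fields `L ⊇ K`, all finitely generated groups `Γ ⊂ Lˣ` and all `η < 1`, only finitely
many of the complete intersections `X_c`, `c ∈ W η`, have a `Γ`-integral point over `L`. -/
def NoIntegralPoints (K : Type) [Field K] [NumberField K] {N : ℕ} (ω : Module.Basis (Fin N) ℤ (𝓞 K))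
    {r s m q κ : ℕ} (a b : Fin r → ℤ) (G : Fin q → Pol (𝓞 K) r s m) (σ : K →+* ℂ) (k₀ : ℕ)
    (ι : Fin κ → Type) [∀ j, Fintype (ι j)] (W : ℝ → Set ((Σ j, ι j) × Fin N → ℤ)) : Prop :=
  ∀ (Φ : Fin κ → Pol (𝓞 K) r s m) (Λ : (j : Fin κ) → ι j → Pol (𝓞 K) r s m)
    (d : Fin κ → Fin r → ℕ) (e : Fin κ → ℕ),
    (∀ j, Homog (Φ j) (d j) (e j)) → (∀ j x, Homog (Λ j x) (d j) (e j)) →
    (∀ j, SepFib σ a b G (Λ j) k₀) →
    ∀ (L : Type) [Field L] [NumberField L] [Algebra K L],
      (Function.Surjective (algebraMap K L) ∨ ∀ j, SepTwo σ a b G (Λ j) k₀) →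
      ∀ Γ : Subgroup Lˣ, Γ.FG → ∀ η : ℝ, η < 1 → (HasPoint ω a b Γ G Φ Λ ∩ W η).Finite

theorem countable_pol (K : Type) [Field K] [NumberField K] (r s m : ℕ) :
    Countable (Pol (𝓞 K) r s m) := by
  have hK : Countable K := (Module.finBasis ℚ K).equivFun.toEquiv.countable_iff.2 inferInstance
  have hO : Countable (𝓞 K) := (RingOfIntegers.coe_injective (K := K)).countable
  rw [← Cardinal.mk_le_aleph0_iff]
  refine MvPolynomial.cardinalMk_le_max.trans (max_le (max_le ?_ ?_) le_rfl)
  · rw [Cardinal.mk_le_aleph0_iff]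
    exact hO
  · rw [Cardinal.mk_le_aleph0_iff]
    infer_instance

theorem near_sub {α : Type} [Fintype α] {Y : Type} [MetricSpace Y] (ρ : (α → ℤ) → Y) (t : ℝ)
    (ht : 0 < t) (y : Y) (η : ℝ) (c : α → ℤ) (hc : c ∈ Near ρ t y η) :
    dist y (ρ c) ≤ Real.exp (-(((Fintype.card α : ℕ) * Real.log (D0H48.Mv.size c) -
      Real.log (D0H48.Mv.size c) ^ η) / t)) ∨ D0H48.Mv.size c ≤ 0 := by
  have hsz : D0H48.Mv.size c = size c := rfl
  rw [hsz]
  rcases Nat.eq_zero_or_pos (size c) with h0 | h0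
  · right
    omega
  left
  have hcR : (0 : ℝ) < size c := by exact_mod_cast h0
  have h1 : dist y (ρ c) ^ t * (size c : ℝ) ^ Fintype.card α ≤ Real.exp (Real.log (size c) ^ η) := hc
  have h2 : (size c : ℝ) ^ Fintype.card α = Real.exp ((Fintype.card α : ℕ) * Real.log (size c)) := by
    rw [Real.exp_nat_mul, Real.exp_log hcR]
  rw [h2] at h1
  have h3 : dist y (ρ c) ^ t ≤ Real.exp (Real.log (size c) ^ η - (Fintype.card α : ℕ) * Real.log (size c)) := by
    rw [Real.exp_sub, le_div_iff₀ (Real.exp_pos _)]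
    exact h1
  have h4 := Real.rpow_le_rpow (by positivity) h3 (show (0 : ℝ) ≤ 1 / t by positivity)
  rw [← Real.rpow_mul dist_nonneg, mul_one_div_cancel ht.ne', Real.rpow_one, ← Real.exp_mul] at h4
  refine h4.trans (le_of_eq ?_)
  congr 1
  field_simp
  ring

/-- **The metric form of the Lang-Vojta conjecture for complete intersections over semiabelian
varieties.** -/
theorem result (K : Type) [Field K] [NumberField K] (N : ℕ) (ω : Module.Basis (Fin N) ℤ (𝓞 K))
    (r s m q κ : ℕ) (hκ : 1 ≤ κ) (a b : Fin r → ℤ)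
    (hab : ∀ i, a i * b i = 0 ∧ (a i ≠ 0 ∨ b i ≠ 0))
    (G : Fin q → Pol (𝓞 K) r s m) (dG : Fin q → Fin r → ℕ) (eG : Fin q → ℕ)
    (hG : ∀ l, Homog (G l) (dG l) (eG l)) (σ : K →+* ℂ) (hdim : DimLE σ a b G κ) :
    ∃ k₀ : ℕ,
      -- for all metric spaces, outside a null set
      (∀ (ι : Fin κ → Type) [∀ j, Fintype (ι j)] (Y : Type) [MetricSpace Y] [MeasurableSpace Y]
        [BorelSpace Y] (ρ : ((Σ j, ι j) × Fin N → ℤ) → Y) (t : ℝ), 0 < t →
        ∃ Θ : Set Y, μH[t] Θ = 0 ∧
          ∀ y, y ∉ Θ → NoIntegralPoints K ω a b G σ k₀ ι (Near ρ t y)) ∧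
      -- for almost all points of real vector spaces
      (∀ (ι : Fin κ → Type) [∀ j, Fintype (ι j)] (E : Type) [NormedAddCommGroup E] [NormedSpace ℝ E]
        [FiniteDimensional ℝ E] [Nontrivial E] [MeasurableSpace E] [BorelSpace E] (μ : Measure E)
        [μ.IsAddHaarMeasure] (ρ : ((Σ j, ι j) × Fin N → ℤ) → E),
        ∀ᵐ y ∂μ, NoIntegralPoints K ω a b G σ k₀ ι (Near ρ (Module.finrank ℝ E) y)) ∧
      -- systems of monomials which separate `k₀` points
      (∀ (ι : Type) (Λ : ι → Pol (𝓞 K) r s m) (d : Fin r → ℕ) (e : ℕ) (x₀ : Fin s → ℕ),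
        k₀ ≤ e + 1 →
        (∀ (μ : Fin r → Fin 3 → ℕ) (α : Fin m → ℕ), (∀ i, ∑ j, μ i j = d i) → ∑ i, α i = e →
          ∃ y, Λ y = mon μ x₀ α) →
        SepFib σ a b G Λ k₀ ∧
        ((∀ i, 1 ≤ d i) → (∀ (μ : Fin r → Fin 3 → ℕ) (α : Fin m → ℕ) (l : Fin s),
          (∀ i, ∑ j, μ i j = d i) → ∑ i, α i = e →
            ∃ y, Λ y = mon μ (Function.update x₀ l (x₀ l + 1)) α) → SepTwo σ a b G Λ k₀)) ∧
      -- the good approximations of all irrational directions are infinitely many
      ∀ (α : Type) [Fintype α] [DecidableEq α] (i₀ : α) (y : {i // i ≠ i₀} → ℝ),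
        (∃ i, Irrational (y i)) → ∀ η : ℝ, 0 < η →
          {c ∈ Near (direction i₀) (Module.finrank ℝ ({i // i ≠ i₀} → ℝ)) y η |
            Finset.univ.gcd c = 1 ∧ 1 ≤ c i₀}.Infinite := by
  classical
  obtain ⟨k₀, h1, h2⟩ := LinearSystemsOverSemiabelian.result K N ω r s m q κ hκ a b hab G dG eG hG σ hdim
  have key : ∀ (ι : Fin κ → Type) [∀ j, Fintype (ι j)] (Y : Type) [MetricSpace Y] [MeasurableSpace Y]
      [BorelSpace Y] (ρ : ((Σ j, ι j) × Fin N → ℤ) → Y) (t : ℝ), 0 < t →
      ∃ Θ : Set Y, μH[t] Θ = 0 ∧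
        ∀ y, y ∉ Θ → NoIntegralPoints K ω a b G σ k₀ ι (Near ρ t y) := by
    intro ι _ Y _ _ _ ρ t ht
    have hcard : Fintype.card ((Σ j, ι j) × Fin N) = Fintype.card (Σ j, ι j) * N := by
      rw [Fintype.card_prod, Fintype.card_fin]
    -- the empty case
    rcases Nat.eq_zero_or_pos (Fintype.card ((Σ j, ι j) × Fin N)) with hD | hD
    · have hemp : IsEmpty ((Σ j, ι j) × Fin N) := Fintype.card_eq_zero_iff.1 hD
      refine ⟨∅, measure_empty, fun y _ => ?_⟩
      intro Φ Λ d e _ _ _ L _ _ _ _ Γ _ η _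
      exact Set.toFinite _
    -- the data
    have hct := countable_pol K r s m
    obtain ⟨en, hen⟩ : ∃ en : ℕ → (Fin κ → Pol (𝓞 K) r s m) × ((j : Fin κ) → ι j → Pol (𝓞 K) r s m) ×
        (Fin κ → Fin r → ℕ) × (Fin κ → ℕ), Function.Surjective en := by
      have : Nonempty ((Fin κ → Pol (𝓞 K) r s m) × ((j : Fin κ) → ι j → Pol (𝓞 K) r s m) ×
        (Fin κ → Fin r → ℕ) × (Fin κ → ℕ)) := ⟨⟨0, 0, 0, 0⟩⟩
      exact exists_surjective_nat _
    have hex : ∀ n : ℕ, ∃ Θ : Set Y, μH[t] Θ = 0 ∧ ∀ y, y ∉ Θ →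
        (∀ j, Homog ((en n).1 j) ((en n).2.2.1 j) ((en n).2.2.2 j)) →
        (∀ j x, Homog ((en n).2.1 j x) ((en n).2.2.1 j) ((en n).2.2.2 j)) →
        (∀ j, SepFib σ a b G ((en n).2.1 j) k₀) →
        ∀ (L : Type) [Field L] [NumberField L] [Algebra K L],
          (Function.Surjective (algebraMap K L) ∨ ∀ j, SepTwo σ a b G ((en n).2.1 j) k₀) →
          ∀ Γ : Subgroup Lˣ, Γ.FG → ∀ η : ℝ, η < 1 →
            (HasPoint ω a b Γ G (en n).1 (en n).2.1 ∩ Near ρ t y η).Finite := by
      intro n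
      obtain ⟨Φ, Λ, d, e⟩ := en n
      by_cases h : (∀ j, Homog (Φ j) (d j) (e j)) ∧ (∀ j x, Homog (Λ j x) (d j) (e j)) ∧
          (∀ j, SepFib σ a b G (Λ j) k₀)
      · obtain ⟨g1, g2, g3⟩ := h
        obtain ⟨-, E, hE1, hE2⟩ := h1 Φ ι Λ d e g1 g2 g3
        have hfew : D0H48.Mv.Few (Fintype.card ((Σ j, ι j) × Fin N)) E := by
          obtain ⟨H₀, hE1⟩ := hE1
          exact ⟨H₀, fun H hH => by rw [hcard]; exact hE1 H hH⟩
        obtain ⟨Θ, hΘ, hfin⟩ := D0H48.Mv.null_exc_all (Fintype.card ((Σ j, ι j) × Fin N)) hD E hfew ρ t ht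
        refine ⟨Θ, hΘ, fun y hy _ _ _ L _ _ _ hL Γ hΓ η hη => ?_⟩
        refine (((hE2 L hL Γ hΓ).union (hfin y hy η hη)).union
          (D0H48.Mv.size_finite (α := (Σ j, ι j) × Fin N) 0)).subset ?_
        rintro c ⟨hc1, hc2⟩
        by_cases hcE : c ∈ E
        · rcases near_sub ρ t ht y η c hc2 with h3 | h3
          · exact Or.inl (Or.inr ⟨hcE, h3⟩)
          · exact Or.inr h3
        · exact Or.inl (Or.inl ⟨hc1, hcE⟩)
      · refine ⟨∅, measure_empty, fun y _ g1 g2 g3 => absurd ⟨g1, g2, g3⟩ h⟩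
    choose Θ hΘ hy using hex
    refine ⟨⋃ n, Θ n, measure_iUnion_null_iff.2 hΘ, fun y hyΘ => ?_⟩
    intro Φ Λ d e g1 g2 g3 L _ _ _ hL Γ hΓ η hη
    obtain ⟨n, hn⟩ := hen ⟨Φ, Λ, d, e⟩
    have h3 := hy n y (fun h => hyΘ (Set.mem_iUnion.2 ⟨n, h⟩))
    rw [hn] at h3
    exact h3 g1 g2 g3 L hL Γ hΓ η hη
  refine ⟨k₀, key, ?_, h2, ?_⟩
  rotate_left
  · intro α _ _ i₀ y hy η hη
    refine (D0H48.Mv.near_eta_infinite i₀ y hy η hη).mono ?_
    rintro c ⟨hc1, hc2, hc3⟩
    refine ⟨?_, hc1, hc2⟩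
    have hfr : Module.finrank ℝ ({i // i ≠ i₀} → ℝ) = Fintype.card α - 1 := by
      rw [Module.finrank_fintype_fun_eq_card, Fintype.card_subtype_compl, Fintype.card_subtype_eq]
    show dist y (direction i₀ c) ^ ((Module.finrank ℝ ({i // i ≠ i₀} → ℝ) : ℕ) : ℝ) *
      (size c : ℝ) ^ Fintype.card α ≤ Real.exp (Real.log (size c) ^ η)
    rw [Real.rpow_natCast, hfr]
    exact hc3
  intro ι _ E _ _ _ _ _ _ μ _ ρ
  obtain ⟨Θ, hΘ, hall⟩ := key ι E ρ (Module.finrank ℝ E) (by exact_mod_cast Module.finrank_pos)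
  have h3 : μ ≪ μH[(Module.finrank ℝ E : ℝ)] := Measure.absolutelyContinuous_isAddHaarMeasure _ _
  have h4 : ∀ᵐ y ∂μ, y ∉ Θ := measure_eq_zero_iff_ae_notMem.1 (h3 hΘ)
  filter_upwards [h4] with y hy
  exact hall y hy

end Pool.Agent.Results.MP_26d9ad_nt.MetricLinearSystems
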