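import Pool.Agent.D0H85.SQ.FinN

set_option autoImplicit false

/-!
# Sparse integral points on varieties of log-general type

Let `K` be a number field, `k` its algebraic closure and `U = V \ Y` a quasi-projective variety over
`k`, where `V` is a closed subvariety of `ℙ^n`, with function field `E` and generic point `y`, and
where `Y`, of any codimension, is the set of common zeros on `V` of forms `F j` with coefficients in
`K`.

If `U` is of log-general type, then for every `N` there is a proper closed subset `Z` of `V` such that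
for all number fields `L` and all finite sets `S` of places all but finitely many of the (nearly)
`S`-integral points of `U` over `L` which have homogeneous coordinates that are sums of `N` products of
an element of `L` of bounded height and an `S`-unit lie in `Z`. This is the conjecture of Lang and
Vojta in its strong form, with an exceptional set which does not depend on `L` and `S`, for these
points. There are also linear bounds for the heights. More generally, this is true if and only if `U`
is not covered by a family of nonconstant images of the punctured line.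
-/

namespace Pool.Agent.Results.MP_26d9ad_nt.SparseNonDensity

open NumberField IsDedekindDomain Height
open Pool.Agent.W602.GT (coords LogGeneralType)
open scoped LinearAlgebra.Projectivization

section geometry

variable {k : Type} [Field k] {n w : ℕ} {E : Type} [Field E] [Algebra k E]

/-- `P` is a prime divisor of a normal model of the function field `E` whose centre on the closed
subvariety `V` of `ℙ^n` with generic point `y` lies in the set `Y` of the common zeros of the forms
`F j`, of degrees `d j`; that is, `P` has no centre on `U = V \ Y`. -/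
def NoCentre (F : Fin w → MvPolynomial (Fin (n + 1)) k) (d : Fin w → ℕ) (y : Fin (n + 1) → E)
    (P : FF.Place k E) : Prop :=
  ∃ i, y i ≠ 0 ∧ ∀ j, MvPolynomial.aeval y (F j) = 0 ∨
    d j * P.ord (y i) < P.ord (MvPolynomial.aeval y (F j))

/-- `U = V \ Y` is covered by a family of nonconstant images of the punctured line: over some
extension `M` of `k` there is a nonconstant morphism `t ↦ (W 0 (t) : … : W n (t))` from the punctured
line to `U`, `W i ∈ M[t]`, whose image is not contained in any closed subvariety of `V`, defined over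
`k`, other than `V`. -/
def Covered (F : Fin w → MvPolynomial (Fin (n + 1)) k) (y : Fin (n + 1) → E) : Prop :=
  ∃ (M : Type) (_ : Field M) (_ : Algebra k M) (W : Fin (n + 1) → Polynomial M),
    (∀ g : MvPolynomial (Fin (n + 1)) k, (∃ e, g.IsHomogeneous e) →
      (MvPolynomial.aeval y g = 0 ↔ (MvPolynomial.aeval W g : Polynomial M) = 0)) ∧
    (∀ t : AlgebraicClosure M, t ≠ 0 →
      ∃ j, Polynomial.aeval t (MvPolynomial.aeval W (F j) : Polynomial M) ≠ 0) ∧
    ∃ i j, W i * Polynomial.C ((W j).eval 1) ≠ W j * Polynomial.C ((W i).eval 1)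

/-- The point with homogeneous coordinates `z` lies on the closed subvariety `V` of `ℙ^n` with generic
point `y`. -/
def OnV (y : Fin (n + 1) → E) (z : Fin (n + 1) → k) : Prop :=
  ∀ g : MvPolynomial (Fin (n + 1)) k, (∃ e, g.IsHomogeneous e) → MvPolynomial.aeval y g = 0 →
    MvPolynomial.eval z g = 0

/-- The polynomials `P i`, with at most `N` terms each, define a nonconstant morphism from the
punctured line to `U = V \ Y`. -/
def PuncturedLine (F : Fin w → MvPolynomial (Fin (n + 1)) k) (y : Fin (n + 1) → E) (N : ℕ)
    (P : Fin (n + 1) → Polynomial k) : Prop :=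
  (∀ i, (P i).support.card ≤ N) ∧
  (∀ t : k, t ≠ 0 → OnV y (fun i => (P i).eval t) ∧
    ∃ j, MvPolynomial.eval (fun i => (P i).eval t) (F j) ≠ 0) ∧
  ∃ s t : k, s ≠ 0 ∧ t ≠ 0 ∧ ∃ i j, (P i).eval s * (P j).eval t ≠ (P j).eval s * (P i).eval t

end geometry

section arithmetic

/-- `y` is a sum of `N` products of an element of logarithmic height at most `T` and an
`S`-unit. -/
def Sparse {L : Type} [Field L] [NumberField L] (S : Set (HeightOneSpectrum (𝓞 L))) (N : ℕ) (T : ℝ)
    (y : L) : Prop :=
  ∃ (a : Fin N → L) (u : Fin N → Lˣ), (∀ j, logHeight₁ (a j) ≤ T) ∧ (∀ j, u j ∈ S.unit L) ∧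
    y = ∑ j, a j * (u j : L)

/-- `∑_{v ∉ S} - log max_j |y_j|_v`, the logarithm of the norm of the part outside of `S` of the
greatest common divisor of the `y j`. For `S`-integers `y j`, not all zero, it is `0` if and only if
they are coprime, and positive otherwise. -/
noncomputable def gcdHeight {L : Type} [Field L] [NumberField L]
    (S : Set (HeightOneSpectrum (𝓞 L))) {w : ℕ} (y : Fin w → L) : ℝ :=
  ∑ᶠ (v : HeightOneSpectrum (𝓞 L)) (_ : v ∉ S), -Real.log (⨆ j, FinitePlace.mk v (y j))

/-- `x` is a vector of homogeneous coordinates of an `L`-rational point of `ℙ^n \ Y`, all of them sums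
of `N` products of an element of height at most `T` and an `S`-unit, with
`gcdHeight S (F j (x))_j ≤ T`. For `T = 0`, if the coefficients of the forms `F j` are `S`-integers,
this means that the `x i` are sums of at most `N` `S`-units and the `F j (x)` are coprime, so that the
point is an `S`-integral point of `ℙ^n \ Y`. -/
def SparsePoint {K : Type} [Field K] {n w : ℕ} (F : Fin w → MvPolynomial (Fin (n + 1)) K) {L : Type}
    [Field L] [NumberField L] [Algebra K L] (S : Set (HeightOneSpectrum (𝓞 L))) (N : ℕ) (T : ℝ)
    (x : Fin (n + 1) → L) : Prop :=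
  x ≠ 0 ∧ (∃ j, MvPolynomial.aeval x (F j) ≠ 0) ∧ (∀ i, Sparse S N T (x i)) ∧
    gcdHeight S (fun j => MvPolynomial.aeval x (F j)) ≤ T

/-- The set of the points of `U` over the number field `L`, embedded into the algebraic closure by
`ι`, which lie outside of `H = 0` and have homogeneous coordinates as in `SparsePoint F S N T`. -/
def points {K : Type} [Field K] {n w : ℕ} {E : Type} [Field E] [Algebra (AlgebraicClosure K) E]
    (F : Fin w → MvPolynomial (Fin (n + 1)) K) (y : Fin (n + 1) → E)
    (H : MvPolynomial (Fin (n + 1)) (AlgebraicClosure K)) {L : Type} [Field L] [NumberField L]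
    [Algebra K L] (ι : L →ₐ[K] AlgebraicClosure K) (S : Set (HeightOneSpectrum (𝓞 L))) (N : ℕ)
    (T : ℝ) : Set (ℙ L (Fin (n + 1) → L)) :=
  {p | ∃ (x : Fin (n + 1) → L) (hx : x ≠ 0), p = Projectivization.mk L x hx ∧
    SparsePoint F S N T x ∧ OnV y (fun i => ι (x i)) ∧
      MvPolynomial.eval (fun i => ι (x i)) H ≠ 0}

end arithmetic

/-- **Theorem.** Let `K` be a number field with algebraic closure `k`, `F j` forms over `K`,
`V ⊆ ℙ^n` a closed subvariety over `k` with generic point `y`, and `U = V \ Y`, `Y` the set of the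
common zeros of the `F j`.

(1) The following are equivalent.
(a) `U` is not covered by a family of nonconstant images of the punctured line.
(b) For every `N` there is a form `H` which does not vanish on `V` such that for all number fields `L`
and all finite `S` there is `C` such that for all `T ≥ 0` all points in `points F y H ι S N T` have
logarithmic height at most `C (1 + T)`.
(c) For every `N` there is a form `H` which does not vanish on `V` such that all the sets
`points F y H ι S N T` are finite.
(d) For every `N` there is a form `H` which does not vanish on `V` such that all the sets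
`points F y H ι S N 0`, of integral points whose coordinates are sums of at most `N` `S`-units, are
finite.
(e) For every `N` a form `H` which does not vanish on `V` vanishes on the images of all nonconstant maps
over `k` with at most `N` terms from the punctured line to `U`.

(2) If `U` is of log-general type then (b) holds. -/
theorem result (K : Type) [Field K] [NumberField K] (n w : ℕ)
    (F : Fin w → MvPolynomial (Fin (n + 1)) K) (d : Fin w → ℕ) (hF : ∀ j, (F j).IsHomogeneous (d j))
    -- the variety `V`
    (E : Type) [Field E] [Algebra (AlgebraicClosure K) E] (y : Fin (n + 1) → E) :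
    List.TFAE [
      ¬ Covered (fun j => MvPolynomial.map (algebraMap K (AlgebraicClosure K)) (F j)) y,
      ∀ N : ℕ, ∃ (H : MvPolynomial (Fin (n + 1)) (AlgebraicClosure K)) (e : ℕ),
        H.IsHomogeneous e ∧ MvPolynomial.aeval y H ≠ 0 ∧
        ∀ (L : Type) [Field L] [NumberField L] [Algebra K L] (ι : L →ₐ[K] AlgebraicClosure K)
          (S : Set (HeightOneSpectrum (𝓞 L))), S.Finite →
          ∃ C : ℝ, ∀ T : ℝ, 0 ≤ T → ∀ p ∈ points F y H ι S N T, p.logHeight ≤ C * (1 + T),
      ∀ N : ℕ, ∃ (H : MvPolynomial (Fin (n + 1)) (AlgebraicClosure K)) (e : ℕ),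
        H.IsHomogeneous e ∧ MvPolynomial.aeval y H ≠ 0 ∧
        ∀ (L : Type) [Field L] [NumberField L] [Algebra K L] (ι : L →ₐ[K] AlgebraicClosure K)
          (S : Set (HeightOneSpectrum (𝓞 L))), S.Finite → ∀ T : ℝ, (points F y H ι S N T).Finite,
      ∀ N : ℕ, ∃ (H : MvPolynomial (Fin (n + 1)) (AlgebraicClosure K)) (e : ℕ),
        H.IsHomogeneous e ∧ MvPolynomial.aeval y H ≠ 0 ∧
        ∀ (L : Type) [Field L] [NumberField L] [Algebra K L] (ι : L →ₐ[K] AlgebraicClosure K)
          (S : Set (HeightOneSpectrum (𝓞 L))), S.Finite → (points F y H ι S N 0).Finite,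
      ∀ N : ℕ, ∃ (H : MvPolynomial (Fin (n + 1)) (AlgebraicClosure K)) (e : ℕ),
        H.IsHomogeneous e ∧ MvPolynomial.aeval y H ≠ 0 ∧
        ∀ P : Fin (n + 1) → Polynomial (AlgebraicClosure K),
          PuncturedLine (fun j => MvPolynomial.map (algebraMap K (AlgebraicClosure K)) (F j)) y N P →
            ∀ t, t ≠ 0 → MvPolynomial.eval (fun i => (P i).eval t) H = 0] ∧
    ∀ p : ℕ, Algebra.trdeg (AlgebraicClosure K) E = p → y ≠ 0 → coords (AlgebraicClosure K) y = ⊤ →
      LogGeneralType (AlgebraicClosure K) E p
        (NoCentre (fun j => MvPolynomial.map (algebraMap K (AlgebraicClosure K)) (F j)) d y) →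
      ∀ N : ℕ, ∃ (H : MvPolynomial (Fin (n + 1)) (AlgebraicClosure K)) (e : ℕ),
        H.IsHomogeneous e ∧ MvPolynomial.aeval y H ≠ 0 ∧
        ∀ (L : Type) [Field L] [NumberField L] [Algebra K L] (ι : L →ₐ[K] AlgebraicClosure K)
          (S : Set (HeightOneSpectrum (𝓞 L))), S.Finite →
          ∃ C : ℝ, ∀ T : ℝ, 0 ≤ T → ∀ p ∈ points F y H ι S N T, p.logHeight ≤ C * (1 + T) := by
  have h := Pool.Agent.D0H85.SQ.dens_tfaeNF F d hF y
  have eb : (∀ N : ℕ, ∃ (H : MvPolynomial (Fin (n + 1)) (AlgebraicClosure K)) (e : ℕ),
        H.IsHomogeneous e ∧ MvPolynomial.aeval y H ≠ 0 ∧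
        ∀ (L : Type) [Field L] [NumberField L] [Algebra K L] (ι : L →ₐ[K] AlgebraicClosure K)
          (S : Set (HeightOneSpectrum (𝓞 L))), S.Finite →
          ∃ C : ℝ, ∀ T : ℝ, 0 ≤ T → ∀ p ∈ points F y H ι S N T, p.logHeight ≤ C * (1 + T)) ↔
      ∀ N, Pool.Agent.D0H85.SQ.HB F y N := by
    refine forall_congr' fun N => ⟨?_, ?_⟩
    · rintro ⟨H, e, h1, h2, h3⟩
      refine ⟨H, e, h1, h2, fun L _ _ _ ι S hS => ?_⟩
      obtain ⟨C, hC⟩ := h3 L ι S hS
      refine ⟨C, fun T hT x hx hV hH => ?_⟩
      have h4 := hC T hT (Projectivization.mk L x hx.1) ⟨x, hx.1, rfl, hx, hV, hH⟩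
      rwa [Projectivization.logHeight_mk] at h4
    · rintro ⟨H, e, h1, h2, h3⟩
      refine ⟨H, e, h1, h2, fun L _ _ _ ι S hS => ?_⟩
      obtain ⟨C, hC⟩ := h3 L ι S hS
      refine ⟨C, ?_⟩
      rintro T hT p ⟨x, hx, rfl, hsp, hV, hH⟩
      rw [Projectivization.logHeight_mk]
      exact hC T hT x hsp hV hH
  have ee : (∀ N : ℕ, ∃ (H : MvPolynomial (Fin (n + 1)) (AlgebraicClosure K)) (e : ℕ),
        H.IsHomogeneous e ∧ MvPolynomial.aeval y H ≠ 0 ∧
        ∀ P : Fin (n + 1) → Polynomial (AlgebraicClosure K),
          PuncturedLine (fun j => MvPolynomial.map (algebraMap K (AlgebraicClosure K)) (F j)) y N P →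
            ∀ t, t ≠ 0 → MvPolynomial.eval (fun i => (P i).eval t) H = 0) ↔
      ∀ N, Pool.Agent.D0H85.AC.TermFormK (Pool.Agent.D0H85.SQ.cl F) y N := by
    refine forall_congr' fun N => ⟨?_, ?_⟩
    · rintro ⟨H, e, h1, h2, h3⟩
      exact ⟨H, e, h1, h2, fun P hP hn hN => h3 P ⟨hN, fun t ht =>
        ⟨fun g hg h0 => (hP t ht).1 g ⟨hg, h0⟩, (hP t ht).2⟩, hn⟩⟩
    · rintro ⟨H, e, h1, h2, h3⟩
      exact ⟨H, e, h1, h2, fun P hP => h3 P (fun t ht =>
        ⟨fun g hg => (hP.2.1 t ht).1 g hg.1 hg.2, (hP.2.1 t ht).2⟩) hP.2.2 hP.1⟩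
  refine ⟨?_, fun p hp hy hgen hlgt => ?_⟩
  · rw [eb, ee]
    exact h
  · rw [eb]
    exact (h.out 0 1).1 (Pool.Agent.D0H85.SQ.not_covered _ d (fun j => (hF j).map _) hp hy hgen hlgt)

end Pool.Agent.Results.MP_26d9ad_nt.SparseNonDensity
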