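import Pool.Agent.D0H59.UG.Nq

set_option autoImplicit false

/-!
# The Lang-Vojta conjecture for sparse integral points, uniformly in the variety

`U = V \ {F = 0}`, where `V` is the closed subset of `ℙ^n` given by a set `𝒢` of forms of degree at most `d` over a
number field `K`, and `F` is a form of degree at most `d` over `K` (for `F = 1` this is `U = V`, and all rational
points are integral). For a finite extension `L` of `K` and a finite set `S` of places of `L` we consider the
(nearly) `S`-integral points of `U` over `L` which have homogeneous coordinates that are sums of `N` products of an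
element of `L` of height at most `T` and an `S`-unit (`SparsePoint F S N T`).

For given `n`, `d` and `N` there is a number `D` such that the following holds for ALL number fields `K` and ALL
these `U`.

(1) For all `L` and `S` there is `C` such that each point of this kind of logarithmic height greater than `C (1 + T)`
LIES ON the image of a nonconstant morphism from the punctured line to `U`, defined over the algebraic closure of
`K`, with at most `N` terms and of degree at most `D`. (In particular, there are only finitely many points of this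
kind, for each `T`, outside of these punctured lines.)

(2) Let `V` be irreducible. If `U` is of log general type, or, more generally, if `U` is not covered by a family of
such punctured lines, then there is ONE form `H` of degree at most `D` which does not vanish on `V`, such that for all
`L` and `S` all the points of this kind of logarithmic height greater than `C (1 + T)` lie in `H = 0`, where `C`
depends on `L` and `S`.

So the conjecture of Lang and Vojta is true for these points in its strong form, with an exceptional set which does
not depend on `L` and `S`, and whose degree is bounded in all algebraic families of varieties, and the exceptional set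
consists of the images of the punctured line: each exceptional point is explained by a punctured line of bounded
degree. The hand-in `SparseNonDensity` treats one variety `U`, with a boundary of any codimension; there the
exceptional set is not bounded, and nothing is said about single points.

The proof. If the theorem is wrong then there is a sequence of points `x t` with `logHeight (x t) > t (1 + T t)`. By
helper85's theorem (subspace theorem along an ultrafilter) it can be deformed to a curve
`t ↦ (∑ j, c (i, j) t ^ e (i, j))_i` in `U` over some field `M`, such that a form vanishes at almost all of the points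
if and only if it vanishes at the point of the curve for `t = 1`. Whether such a curve lies in `U` depends for given `c`
only on the coincidences between the exponents of the monomials of degree at most `d + 1` in the terms. So the
exponent matrix `e` can be replaced by one of finitely many, without a change of `c` and of the point at `t = 1`. By
Chevalley's theorem, for the universal family of all varieties given by forms of degree at most `d`, the points on
such curves form a constructible set over `ℤ`, and so it contains almost all of the points `x t`.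
-/

namespace Pool.Agent.Results.MP_26d9ad_nt.UniformSparseLangVojta

open NumberField IsDedekindDomain Height
open Pool.Agent.W602.GT (coords LogGeneralType)

section geometry

variable {K : Type} [Field K] {n : ℕ}

/-- The point with homogeneous coordinates `z` lies on the closed subset `V` of `ℙ^n` which is the set of the
common zeros of the forms in `𝒢`. -/
def OnV {R : Type} [Field R] [Algebra K R] (𝒢 : Set (MvPolynomial (Fin (n + 1)) K))
    (z : Fin (n + 1) → R) : Prop :=
  ∀ g ∈ 𝒢, MvPolynomial.aeval z g = 0

/-- The polynomials `P i` over the algebraic closure of `K`, with at most `N` terms each, define a nonconstant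
morphism from the punctured line to `U = V \ {F = 0}`. -/
def PuncturedLine (𝒢 : Set (MvPolynomial (Fin (n + 1)) K)) (F : MvPolynomial (Fin (n + 1)) K) (N : ℕ)
    (P : Fin (n + 1) → Polynomial (AlgebraicClosure K)) : Prop :=
  (∀ i, (P i).support.card ≤ N) ∧
  (∀ t : AlgebraicClosure K, t ≠ 0 → OnV 𝒢 (fun i => (P i).eval t) ∧
    MvPolynomial.aeval (fun i => (P i).eval t) F ≠ 0) ∧
  ∃ s t : AlgebraicClosure K, s ≠ 0 ∧ t ≠ 0 ∧
    ∃ i j, (P i).eval s * (P j).eval t ≠ (P j).eval s * (P i).eval t

variable {k : Type} [Field k] {E : Type} [Field E] [Algebra k E]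

/-- `U = V \ {F = 0}` is covered by a family of nonconstant images of the punctured line with at most `N`
terms and of degree at most `D`: over some extension `M` of `k` there is a nonconstant morphism
`t ↦ (W 0 (t) : … : W n (t))` from the punctured line to `U`, `W i ∈ M[t]` with at most `N` terms and of
degree at most `D`, whose image is not contained in any closed subvariety of `V`, defined over `k`, other
than `V`. -/
def Covered (N D : ℕ) (F : MvPolynomial (Fin (n + 1)) k) (y : Fin (n + 1) → E) : Prop :=
  ∃ (M : Type) (_ : Field M) (_ : Algebra k M) (W : Fin (n + 1) → Polynomial M),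
    (∀ i, (W i).support.card ≤ N ∧ (W i).natDegree ≤ D) ∧
    (∀ g : MvPolynomial (Fin (n + 1)) k, (∃ e, g.IsHomogeneous e) →
      (MvPolynomial.aeval y g = 0 ↔ (MvPolynomial.aeval W g : Polynomial M) = 0)) ∧
    (∀ t : AlgebraicClosure M, t ≠ 0 →
      Polynomial.aeval t (MvPolynomial.aeval W F : Polynomial M) ≠ 0) ∧
    ∃ i j, W i * Polynomial.C ((W j).eval 1) ≠ W j * Polynomial.C ((W i).eval 1)

/-- `P` is a prime divisor of a normal model of the function field `E` whose centre on the closed
subvariety `V` of `ℙ^n` with generic point `y` lies in the set of the zeros of the form `F` of degree `m`;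
that is, `P` has no centre on `U = V \ {F = 0}`. -/
def NoCentre (F : MvPolynomial (Fin (n + 1)) k) (m : ℕ) (y : Fin (n + 1) → E)
    (P : FF.Place k E) : Prop :=
  ∃ i, y i ≠ 0 ∧ (MvPolynomial.aeval y F = 0 ∨ m * P.ord (y i) < P.ord (MvPolynomial.aeval y F))

/-- The closed subset `V` of `ℙ^n` is irreducible over `k`, `E` is its function field and `y` its generic point. -/
def GenericPoint [Algebra K k] (𝒢 : Set (MvPolynomial (Fin (n + 1)) K)) (y : Fin (n + 1) → E) : Prop :=
  y ≠ 0 ∧ coords k y = ⊤ ∧
  (∀ g ∈ 𝒢, MvPolynomial.aeval y (MvPolynomial.map (algebraMap K k) g) = 0) ∧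
  ∀ z : Fin (n + 1) → k, OnV 𝒢 z → ∀ g : MvPolynomial (Fin (n + 1)) k, (∃ e, g.IsHomogeneous e) →
    MvPolynomial.aeval y g = 0 → MvPolynomial.eval z g = 0

end geometry

section arithmetic

variable {L : Type} [Field L] [NumberField L]

/-- `y` is a sum of `N` products of an element of logarithmic height at most `T` and an
`S`-unit. -/
def Sparse (S : Set (HeightOneSpectrum (𝓞 L))) (N : ℕ) (T : ℝ) (y : L) : Prop :=
  ∃ (a : Fin N → L) (u : Fin N → Lˣ), (∀ j, logHeight₁ (a j) ≤ T) ∧ (∀ j, u j ∈ S.unit L) ∧
    y = ∑ j, a j * (u j : L)

/-- `∑_{v ∉ S} - log |y|_v`, the logarithm of the norm of the part of `y` outside of `S`. For an `S`-integer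
`y ≠ 0` it is `0` if and only if `y` is an `S`-unit, and positive otherwise. -/
noncomputable def normHeight (S : Set (HeightOneSpectrum (𝓞 L))) (y : L) : ℝ :=
  ∑ᶠ (v : HeightOneSpectrum (𝓞 L)) (_ : v ∉ S), -Real.log (FinitePlace.mk v y)

/-- `x` is a vector of homogeneous coordinates of an `L`-rational point of `ℙ^n \ {F = 0}`, all of them sums
of `N` products of an element of height at most `T` and an `S`-unit, with `normHeight S (F (x)) ≤ T`. For
`T = 0`, if the coefficients of `F` are `S`-integers, this means that the `x i` are sums of at most `N` `S`-units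
and `F (x)` is an `S`-unit, so that the point is an `S`-integral point of `ℙ^n \ {F = 0}`. -/
def SparsePoint {K : Type} [Field K] {n : ℕ} [Algebra K L] (F : MvPolynomial (Fin (n + 1)) K)
    (S : Set (HeightOneSpectrum (𝓞 L))) (N : ℕ) (T : ℝ) (x : Fin (n + 1) → L) : Prop :=
  x ≠ 0 ∧ MvPolynomial.aeval x F ≠ 0 ∧ (∀ i, Sparse S N T (x i)) ∧
    normHeight S (MvPolynomial.aeval x F) ≤ T

end arithmetic

/-- **Theorem.** For all `n`, `d` and `N` there is `D` such that the following holds for all number fields `K`, with
algebraic closure `k`, and all `U = V \ {F = 0}`, where `V` is the closed subset of `ℙ^n` given by a set `𝒢` of forms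
of degree at most `d` over `K`, and `F` is a form of degree `m ≤ d` over `K`.

(1) For all finite extensions `L` of `K` in `k` and all finite `S` there is `C` such that for all `T ≥ 0` each point
of `U` over `L` with coordinates `x` as in `SparsePoint F S N T` and of logarithmic height greater than `C (1 + T)`
lies on a nonconstant image of the punctured line in `U`, with at most `N` terms and of degree at most `D`.

(2) Let `V` be irreducible over `k`, with generic point `y`. If `U` is not covered by a family of nonconstant
images of the punctured line with at most `N` terms and of degree at most `D`, or if `U` is of log general type, then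
there is a form `H` over `k` of degree at most `D` which does not vanish on `V`, such that for all `L` and all finite
`S` there is `C` such that for all `T ≥ 0` all points as in (1) lie in `H = 0`. -/
theorem result (n d N : ℕ) : ∃ D : ℕ, ∀ (K : Type) [Field K] [NumberField K]
    (𝒢 : Set (MvPolynomial (Fin (n + 1)) K)) (F : MvPolynomial (Fin (n + 1)) K) (m : ℕ),
    (∀ g ∈ 𝒢, ∃ e ≤ d, g.IsHomogeneous e) → m ≤ d → F.IsHomogeneous m →
    (∀ (L : Type) [Field L] [NumberField L] [Algebra K L] (ι : L →ₐ[K] AlgebraicClosure K)
      (S : Set (HeightOneSpectrum (𝓞 L))), S.Finite → ∃ C : ℝ, ∀ T : ℝ, 0 ≤ T →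
      ∀ x : Fin (n + 1) → L, SparsePoint F S N T x → OnV 𝒢 x → C * (1 + T) < logHeight x →
        ∃ P : Fin (n + 1) → Polynomial (AlgebraicClosure K), PuncturedLine 𝒢 F N P ∧
          (∀ i, (P i).natDegree ≤ D) ∧ ∃ μ : AlgebraicClosure K, μ ≠ 0 ∧
            ∀ i, (P i).eval 1 = μ * ι (x i)) ∧
    ∀ (E : Type) [Field E] [Algebra (AlgebraicClosure K) E] (y : Fin (n + 1) → E) (p : ℕ),
      GenericPoint (k := AlgebraicClosure K) 𝒢 y → Algebra.trdeg (AlgebraicClosure K) E = p →
      (¬ Covered N D (MvPolynomial.map (algebraMap K (AlgebraicClosure K)) F) y ∨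
        LogGeneralType (AlgebraicClosure K) E p
          (NoCentre (MvPolynomial.map (algebraMap K (AlgebraicClosure K)) F) m y)) →
      ∃ (H : MvPolynomial (Fin (n + 1)) (AlgebraicClosure K)) (e : ℕ), e ≤ D ∧
        H.IsHomogeneous e ∧ MvPolynomial.aeval y H ≠ 0 ∧
        ∀ (L : Type) [Field L] [NumberField L] [Algebra K L] (ι : L →ₐ[K] AlgebraicClosure K)
          (S : Set (HeightOneSpectrum (𝓞 L))), S.Finite → ∃ C : ℝ, ∀ T : ℝ, 0 ≤ T →
          ∀ x : Fin (n + 1) → L, SparsePoint F S N T x → OnV 𝒢 x → C * (1 + T) < logHeight x →
            MvPolynomial.eval (fun i => ι (x i)) H = 0 := by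
  obtain ⟨D1, hD1⟩ := Pool.Agent.D0H59.UG.pwNF n N d
  obtain ⟨D2, hD2⟩ := Pool.Agent.D0H59.UG.formNF n N d
  refine ⟨max D1 D2, fun K _ _ 𝒢 F m h𝒢 hm hF => ?_⟩
  have h1 : ∀ (L : Type) [Field L] [NumberField L] [Algebra K L] (ι : L →ₐ[K] AlgebraicClosure K)
      (S : Set (HeightOneSpectrum (𝓞 L))), S.Finite → ∃ C : ℝ, ∀ T : ℝ, 0 ≤ T →
      ∀ x : Fin (n + 1) → L, SparsePoint F S N T x → OnV 𝒢 x → C * (1 + T) < logHeight x →
        ∃ P : Fin (n + 1) → Polynomial (AlgebraicClosure K), PuncturedLine 𝒢 F N P ∧
          (∀ i, (P i).natDegree ≤ max D1 D2) ∧ ∃ μ : AlgebraicClosure K, μ ≠ 0 ∧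
            ∀ i, (P i).eval 1 = μ * ι (x i) := by
    intro L _ _ _ ι S hS
    obtain ⟨C, hC⟩ := hD1 K 𝒢 F h𝒢 ⟨m, hm, hF⟩ L ι S hS
    refine ⟨C, fun T hT x hx hV hlt => ?_⟩
    obtain ⟨P, a1, a2, a3⟩ := hC T hT x hx.2.1 hx.2.2.1 (by
      have h2 := hx.2.2.2
      unfold normHeight at h2
      unfold Pool.Agent.D0H85.SP.gcdHeight
      simp only [ciSup_const]
      exact h2) hV hlt
    exact ⟨P, a1, fun i => (a2 i).trans (le_max_left _ _), a3⟩
  refine ⟨h1, fun E _ _ y p hy hp hcov => ?_⟩
  obtain ⟨hy0, hgen, hy1, hy2⟩ := hy
  have hcov' : ¬ Pool.Agent.D0H59.UG.CovN N D2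
      (MvPolynomial.map (algebraMap K (AlgebraicClosure K)) F) y := by
    rcases hcov with h | hlgt
    · rintro ⟨M, i1, i2, W, b1, b2, b3, b4⟩
      exact h ⟨M, i1, i2, W, fun i => ⟨(b1 i).1, (b1 i).2.trans (le_max_right _ _)⟩, b2, b3, b4⟩
    · have hnc : ¬ Pool.Agent.D0H85.SQ.Covered
          (fun _ : Fin 1 => MvPolynomial.map (algebraMap K (AlgebraicClosure K)) F) y := by
        refine Pool.Agent.D0H85.SQ.not_covered _ (fun _ => m) (fun _ => hF.map _) hp hy0 hgen ?_
        have e3 : Pool.Agent.D0H85.SQ.NoCentre
            (fun _ : Fin 1 => MvPolynomial.map (algebraMap K (AlgebraicClosure K)) F)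
            (fun _ => m) y =
            NoCentre (MvPolynomial.map (algebraMap K (AlgebraicClosure K)) F) m y := by
          funext P
          refine propext ⟨?_, ?_⟩
          · rintro ⟨i, hi, h⟩
            exact ⟨i, hi, h 0⟩
          · rintro ⟨i, hi, h⟩
            exact ⟨i, hi, fun _ => h⟩
        rw [e3]
        exact hlgt
      rintro ⟨M, i1, i2, W, b1, b2, b3, b4⟩
      exact hnc ⟨M, i1, i2, W, b2, fun t ht => ⟨0, b3 t ht⟩, b4⟩
  obtain ⟨H, e, he, hH, hHy, hlines⟩ := hD2 K (AlgebraicClosure K) 𝒢 F h𝒢 ⟨m, hm, hF⟩ E y hy1
    (fun z hz => hy2 z hz) hcov'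
  refine ⟨H, e, he.trans (le_max_right _ _), hH, hHy, fun L _ _ _ ι S hS => ?_⟩
  obtain ⟨C, hC⟩ := h1 L ι S hS
  refine ⟨C, fun T hT x hx hV hlt => ?_⟩
  obtain ⟨P, a1, -, μ, hμ, a3⟩ := hC T hT x hx hV hlt
  have h2 := hlines P a1 1 one_ne_zero
  have h3 : (fun i => (P i).eval 1) = fun i => μ * ι (x i) := funext a3
  rw [h3] at h2
  have h4 := Pool.Agent.D0H59.UG.homog_scale (RingHom.id (AlgebraicClosure K))
    (fun i => ι (x i)) μ hH
  have h5 : μ ^ e * MvPolynomial.eval (fun i => ι (x i)) H = 0 := h4.symm.trans h2
  exact (mul_eq_zero.1 h5).resolve_left (pow_ne_zero _ hμ)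

end Pool.Agent.Results.MP_26d9ad_nt.UniformSparseLangVojta
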